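import Pool.Agent.Helper97.FS.Stmts
import Pool.Agent.Helper59.Sub.B

set_option autoImplicit false

namespace Pool.Agent.Helper97.FS

open MeasureTheory Metric Set Filter
open scoped ComplexConjugate Topology
open Pool.Agent.Helper97.Sub

theorem SET_up (ν : Measure (AddCircle (1 : ℝ))) [IsFiniteMeasure ν] (s : AddCircle (1 : ℝ))
    (C : ℝ) (hC : 0 ≤ C)
    (h2 : ∀ r, 0 < r → ν.real (closedBall s r) ≤ C * r) (N : ℕ) : KN ν N s ≤ 2 * C * N := by
  rcases Nat.eq_zero_or_pos N with rfl | hN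
  · simp [KN]
  have hN0 : (0 : ℝ) < N := by exact_mod_cast hN
  have hi : ∀ i ∈ Finset.range (N + 1), Integrable ((closedBall s ((2 : ℝ) ^ i / N)).indicator
      (fun _ : AddCircle (1 : ℝ) => (N : ℝ) ^ 2 / 4 ^ i)) ν := fun i _ =>
    (integrable_const _).indicator isClosed_closedBall.measurableSet
  have h3 : KN ν N s ≤ ∑ i ∈ Finset.range (N + 1), ∫ t, (closedBall s ((2 : ℝ) ^ i / N)).indicator
      (fun _ : AddCircle (1 : ℝ) => (N : ℝ) ^ 2 / 4 ^ i) t ∂ν := by
    rw [← integral_finsetSum _ hi]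
    refine integral_mono (B_int ν N s) (integrable_finsetSum _ hi) fun t => ?_
    exact B_pt N hN s t
  refine h3.trans ?_
  have h4 : ∀ i ∈ Finset.range (N + 1), ∫ t, (closedBall s ((2 : ℝ) ^ i / N)).indicator
      (fun _ : AddCircle (1 : ℝ) => (N : ℝ) ^ 2 / 4 ^ i) t ∂ν ≤ C * N * (1 / 2) ^ i := by
    intro i _
    rw [integral_indicator isClosed_closedBall.measurableSet, setIntegral_const, smul_eq_mul]
    have := h2 ((2 : ℝ) ^ i / N) (by positivity)
    calc ν.real (closedBall s ((2 : ℝ) ^ i / N)) * ((N : ℝ) ^ 2 / 4 ^ i)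
        ≤ (C * ((2 : ℝ) ^ i / N)) * ((N : ℝ) ^ 2 / 4 ^ i) :=
          mul_le_mul_of_nonneg_right this (by positivity)
      _ = C * N * (1 / 2) ^ i := by
          have : (4 : ℝ) ^ i = 2 ^ i * 2 ^ i := by rw [← mul_pow]; norm_num
          rw [this, div_pow, one_pow]
          field_simp
  refine (Finset.sum_le_sum h4).trans ?_
  rw [← Finset.mul_sum]
  have h5 : ∑ i ∈ Finset.range (N + 1), ((1 : ℝ) / 2) ^ i ≤ 2 := by
    have := Summable.sum_le_tsum (Finset.range (N + 1)) (fun i _ => by positivity)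
      (summable_geometric_two)
    rw [tsum_geometric_two] at this
    exact this
  nlinarith [mul_nonneg hC hN0.le]

theorem SET_ae (ν : Measure (AddCircle (1 : ℝ))) [IsFiniteMeasure ν] :
    ∀ᵐ s ∂(volume : Measure (AddCircle (1 : ℝ))), ∃ n : ℕ, ∀ N : ℕ, KN ν N s ≤ n * N := by
  have hae : ∀ᵐ s ∂(volume : Measure (AddCircle (1 : ℝ))), Tendsto
      (fun r : ℝ => ν (closedBall s r) / volume (closedBall s r)) (𝓝[>] 0)
      (𝓝 (ν.rnDeriv volume s)) := by
    filter_upwards [VitaliFamily.ae_tendsto_rnDeriv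
      (IsUnifLocDoublingMeasure.vitaliFamily (volume : Measure (AddCircle (1 : ℝ))) 1) ν] with s hs
    refine hs.comp (IsUnifLocDoublingMeasure.tendsto_closedBall_filterAt
      (volume : Measure (AddCircle (1 : ℝ))) (fun _ : ℝ => s) (fun r => r) tendsto_id ?_)
    filter_upwards [self_mem_nhdsWithin] with r hr
    have : (0 : ℝ) < r := hr
    simp [this.le]
  have hfin : ∀ᵐ s ∂(volume : Measure (AddCircle (1 : ℝ))), ν.rnDeriv volume s < ⊤ :=
    Measure.rnDeriv_lt_top ν volume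
  filter_upwards [hae, hfin] with s hs hf
  set h := ν.rnDeriv volume s with hh
  have h2 : ∀ᶠ r in 𝓝[>] (0 : ℝ), ν (closedBall s r) / volume (closedBall s r) < h + 1 :=
    hs.eventually (gt_mem_nhds (ENNReal.lt_add_right hf.ne one_ne_zero))
  obtain ⟨r₀, hr₀, hr⟩ := mem_nhdsGT_iff_exists_Ioo_subset.1 h2
  have hr₀' : (0 : ℝ) < r₀ := hr₀
  set r₁ := min r₀ (1 / 2) with hr₁
  have hr₁0 : 0 < r₁ := lt_min hr₀' (by norm_num)
  have hvol : ∀ r, 0 < r → r < r₁ → volume (closedBall s r) = ENNReal.ofReal (2 * r) := by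
    intro r hr0 hr1
    rw [AddCircle.volume_closedBall, min_eq_right]
    have := lt_of_lt_of_le hr1 (min_le_right _ _)
    linarith
  have hup : ∀ r, 0 < r → r < r₁ → ν.real (closedBall s r) ≤ (2 * (h.toReal + 1)) * r := by
    intro r hr0 hr1
    have h3 := (hr ⟨hr0, lt_of_lt_of_le hr1 (min_le_left _ _)⟩)
    simp only [mem_ofPred_eq] at h3
    rw [hvol r hr0 hr1] at h3
    have h4 : ν (closedBall s r) ≤ (h + 1) * ENNReal.ofReal (2 * r) := by
      rw [← ENNReal.div_le_iff_le_mul (Or.inl (by simpa using hr0)) (Or.inl ENNReal.ofReal_ne_top)]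
      exact h3.le
    have h5 := ENNReal.toReal_mono (ENNReal.mul_ne_top (by simp [hf.ne]) ENNReal.ofReal_ne_top) h4
    rw [ENNReal.toReal_mul, ENNReal.toReal_ofReal (by positivity),
      ENNReal.toReal_add hf.ne ENNReal.one_ne_top, ENNReal.toReal_one] at h5
    refine h5.trans (le_of_eq (by ring))
  have hC : 0 ≤ 2 * (h.toReal + 1) + ν.real univ / r₁ := by positivity
  have hfinal := SET_up ν s (2 * (h.toReal + 1) + ν.real univ / r₁) hC (by
    intro r hr0
    rcases lt_or_ge r r₁ with hlt | hge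
    · refine (hup r hr0 hlt).trans ?_
      refine mul_le_mul_of_nonneg_right ?_ hr0.le
      have : 0 ≤ ν.real univ / r₁ := by positivity
      linarith
    · have h6 : ν.real (closedBall s r) ≤ ν.real univ := measureReal_mono (subset_univ _)
      refine h6.trans ?_
      have h7 : ν.real univ ≤ ν.real univ / r₁ * r := by
        rw [div_mul_eq_mul_div, le_div_iff₀ hr₁0]
        exact mul_le_mul_of_nonneg_left hge measureReal_nonneg
      have h8 : 0 ≤ 2 * (h.toReal + 1) * r := by positivity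
      nlinarith)
  refine ⟨⌈2 * (2 * (h.toReal + 1) + ν.real univ / r₁)⌉₊, fun N => (hfinal N).trans ?_⟩
  exact mul_le_mul_of_nonneg_right (Nat.le_ceil _) (Nat.cast_nonneg _)

theorem SET_meas (ν : Measure (AddCircle (1 : ℝ))) [IsFiniteMeasure ν] (N : ℕ) :
    Measurable fun s => KN ν N s := by
  unfold KN
  have h : Continuous fun p : AddCircle (1 : ℝ) × AddCircle (1 : ℝ) =>
      ‖∑ j ∈ Finset.range N, fourier (j : ℤ) (p.2 - p.1)‖ ^ 2 := by
    fun_prop
  exact (h.stronglyMeasurable.integral_prod_right (ν := ν)).measurable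

theorem st_SET : ST_SET := by
  intro ν hν hns
  have hvh : (volume : Measure (AddCircle (1 : ℝ))) = AddCircle.haarAddCircle := by
    have := AddCircle.volume_eq_smul_haarAddCircle (T := (1 : ℝ))
    rw [this, ENNReal.ofReal_one, one_smul]
  rw [hvh] at hns
  have hae := SET_ae ν
  rw [hvh] at hae
  set lam : Measure (AddCircle (1 : ℝ)) := AddCircle.haarAddCircle with hlam
  set r0 := ν.rnDeriv lam with hr0
  have hr0m : Measurable r0 := Measure.measurable_rnDeriv ν lam
  have hr0f : ∀ᵐ s ∂lam, r0 s < ⊤ := Measure.rnDeriv_lt_top ν lam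
  set ρ : AddCircle (1 : ℝ) → ℝ := fun s => (r0 s).toReal with hρ
  have hρm : Measurable ρ := hr0m.ennreal_toReal
  have hρ0 : ∀ s, 0 ≤ ρ s := fun s => ENNReal.toReal_nonneg
  have hof : (fun s => ENNReal.ofReal (ρ s)) =ᵐ[lam] r0 := by
    filter_upwards [hr0f] with s hs
    exact ENNReal.ofReal_toReal hs.ne
  have hint : Integrable ρ lam := Measure.integrable_toReal_rnDeriv
  obtain ⟨S, hSm, hS1, hS2⟩ := Measure.mutuallySingular_singularPart ν lam
  -- the sets
  set A : ℕ → Set (AddCircle (1 : ℝ)) := fun n =>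
    S ∩ {s | 0 < ρ s} ∩ {s | ∀ N : ℕ, KN ν N s ≤ n * N} with hA
  have hAm : ∀ n, MeasurableSet (A n) := by
    intro n
    refine (hSm.inter (measurableSet_lt measurable_const hρm)).inter ?_
    have : {s | ∀ N : ℕ, KN ν N s ≤ n * N} = ⋂ N : ℕ, {s | KN ν N s ≤ n * N} := by
      ext s; simp
    rw [this]
    exact MeasurableSet.iInter fun N => measurableSet_le (SET_meas ν N) measurable_const
  have hpos : ∃ n, lam (A n) ≠ 0 := by
    by_contra hcon
    push Not at hcon
    have hU : lam (⋃ n, A n) = 0 := measure_iUnion_null hcon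
    apply hns
    rw [← Measure.rnDeriv_eq_zero]
    have h1 : ∀ᵐ s ∂lam, s ∉ ⋃ n, A n := measure_eq_zero_iff_ae_notMem.1 hU
    have h2 : ∀ᵐ s ∂lam, s ∉ Sᶜ := measure_eq_zero_iff_ae_notMem.1 hS2
    filter_upwards [h1, h2, hae, hr0f] with s a1 a2 a3 a4
    by_contra hne
    apply a1
    obtain ⟨n, hn⟩ := a3
    rw [mem_iUnion]
    refine ⟨n, ⟨not_not.1 a2, ?_⟩, hn⟩
    exact ENNReal.toReal_pos hne a4.ne
  obtain ⟨n, hn⟩ := hpos
  obtain ⟨O, hOA, hOc, hOpos⟩ := (hAm n).exists_lt_isClosed_of_ne_top (μ := lam)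
    (measure_ne_top _ _) (pos_iff_ne_zero.2 hn)
  refine ⟨O, n, ρ, ν.singularPart lam, hOc, ?_, inferInstance, ?_, hρm, hρ0, hint, ?_, ?_⟩
  · intro N s hs
    exact (hOA hs).2 N
  · exact measure_mono_null (fun s hs => (hOA hs).1.1) hS1
  · rw [withDensity_congr_ae hof]
    exact (Measure.singularPart_add_rnDeriv ν lam).symm
  · rw [setIntegral_pos_iff_support_of_nonneg_ae (ae_of_all _ hρ0) hint.integrableOn]
    refine lt_of_lt_of_le hOpos (measure_mono fun s hs => ⟨?_, hs⟩)
    rw [Function.mem_support]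
    exact ((hOA hs).1.2 : 0 < ρ s).ne'

end Pool.Agent.Helper97.FS
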